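import Pool.Agent.helper72.UP.Spec

set_option autoImplicit false

namespace Pool.Agent.helper72.UP

open Finset

theorem ASY_uu (hVAN : VAN_stmt) (n i : ℕ) (hi : 1 ≤ i) : uu n i ≤ n.choose (n / 2) := by
  by_cases h : i ≤ n / 2
  · have h1 := hVAN n n le_rfl
    have h2 : uu n i ≤ VV n n := by
      unfold VV
      exact single_le_sum (f := fun i => uu n i) (fun _ _ => Nat.zero_le _) (mem_Icc.2 ⟨hi, h⟩)
    omega
  · unfold uu
    rw [Nat.choose_eq_zero_of_lt (not_le.1 h), Nat.mul_zero]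
    exact Nat.zero_le _

theorem ASY (hDEC : DEC_stmt) (hVAN : VAN_stmt) : ASY_stmt := by
  intro n k hn hk hbig
  rcases Nat.lt_or_ge n 2 with hn2 | hn2
  · have : n = 1 := by omega
    subst this
    have h0 : TT 1 k = 0 := by
      unfold TT
      apply sum_eq_zero
      intro i hi
      rw [mem_Ioc] at hi
      omega
    rw [h0, Nat.mul_zero]
    exact Nat.zero_le _
  have hnR : (2 : ℝ) ≤ n := by exact_mod_cast hn2
  have hnpos : (0 : ℝ) < n := by linarith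
  have hlog : (0.69 : ℝ) ≤ Real.log n := by
    have h2 : Real.log 2 ≤ Real.log n := Real.log_le_log (by norm_num) hnR
    have := Real.log_two_gt_d9
    linarith
  obtain ⟨L, hL⟩ : ∃ L, L = Real.sqrt (n * Real.log n) := ⟨_, rfl⟩
  have hL2 : L ^ 2 = n * Real.log n := by
    rw [hL]
    exact Real.sq_sqrt (by positivity)
  have hL0 : 0 ≤ L := by
    rw [hL]
    exact Real.sqrt_nonneg _
  have hL1 : 1 ≤ L := by
    have h1 : (1 : ℝ) ≤ L ^ 2 := by
      rw [hL2]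
      nlinarith
    nlinarith
  rw [← hL] at hbig
  have hterm : ∀ i ∈ Ioc (k / 2) (n / 2), (uu n i : ℝ) ≤ (n.choose (n / 2) : ℝ) / (n : ℝ) ^ 2 := by
    intro i hi
    rw [mem_Ioc] at hi
    have h2i : k + 1 ≤ 2 * i := by omega
    have h2iR : (k : ℝ) + 1 ≤ 2 * i := by exact_mod_cast h2i
    obtain ⟨i₀, hi₀⟩ : ∃ i₀, i₀ = (n + 3) / 4 := ⟨_, rfl⟩
    have e1 : n ≤ 4 * i₀ := by omega
    have e2 : 4 * i₀ ≤ n + 3 := by omega
    have e2R : 4 * (i₀ : ℝ) ≤ n + 3 := by exact_mod_cast e2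
    have e3 : 1 ≤ i₀ := by omega
    have e4 : (i₀ : ℝ) ≤ i := by linarith
    have e4' : i₀ ≤ i := by exact_mod_cast e4
    obtain ⟨d, rfl⟩ : ∃ d, i = i₀ + d := ⟨i - i₀, by omega⟩
    have hd : 3 * L - 1 / 4 ≤ (d : ℝ) := by
      push_cast at h2iR
      linarith
    have h1 := hDEC n i₀ d e1 e3 hn
    have h2 : Real.exp (-(4 * (d : ℝ) * ((d : ℝ) - 1) / n)) ≤ 1 / (n : ℝ) ^ 2 := by
      have h3 : 2 * Real.log n ≤ 4 * (d : ℝ) * ((d : ℝ) - 1) / n := by
        rw [le_div_iff₀ hnpos]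
        have h4 : L ^ 2 / 2 ≤ (d : ℝ) * ((d : ℝ) - 1) := by
          nlinarith
        rw [hL2] at h4
        linarith
      have h5 : Real.exp (-(4 * (d : ℝ) * ((d : ℝ) - 1) / n)) ≤ Real.exp (-(2 * Real.log n)) :=
        Real.exp_le_exp.2 (by linarith)
      refine h5.trans (le_of_eq ?_)
      rw [Real.exp_neg, show (2 : ℝ) * Real.log n = Real.log n + Real.log n by ring, Real.exp_add,
        Real.exp_log hnpos, one_div, pow_two]
    have h6 : (uu n i₀ : ℝ) ≤ (n.choose (n / 2) : ℝ) := by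
      exact_mod_cast ASY_uu hVAN n i₀ e3
    calc (uu n (i₀ + d) : ℝ) ≤ uu n i₀ * Real.exp (-(4 * (d : ℝ) * ((d : ℝ) - 1) / n)) := h1
      _ ≤ (n.choose (n / 2) : ℝ) * (1 / (n : ℝ) ^ 2) :=
          mul_le_mul h6 h2 (Real.exp_pos _).le (Nat.cast_nonneg _)
      _ = (n.choose (n / 2) : ℝ) / (n : ℝ) ^ 2 := by ring
  have hsum : (TT n k : ℝ) ≤ n * ((n.choose (n / 2) : ℝ) / (n : ℝ) ^ 2) := by
    unfold TT
    push_cast
    refine (sum_le_sum hterm).trans ?_
    rw [sum_const, nsmul_eq_mul]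
    apply mul_le_mul_of_nonneg_right _ (by positivity)
    rw [Nat.card_Ioc]
    have : n / 2 - k / 2 ≤ n := by omega
    exact_mod_cast this
  have hfin : (n : ℝ) * (TT n k : ℝ) ≤ (n.choose (n / 2) : ℝ) := by
    calc (n : ℝ) * (TT n k : ℝ) ≤ n * (n * ((n.choose (n / 2) : ℝ) / (n : ℝ) ^ 2)) :=
          mul_le_mul_of_nonneg_left hsum hnpos.le
      _ = (n.choose (n / 2) : ℝ) := by
          field_simp
  exact_mod_cast hfin

end Pool.Agent.helper72.UP
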