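import Pool.Agent.helper72.UP.Spec

set_option autoImplicit false

namespace Pool.Agent.helper72.UP

open Finset

theorem SPL_sum {ι : Type} [DecidableEq ι] (y : ι → ℝ) (i j : ι) (S : Finset ι) :
    ∑ a ∈ S, y a = ∑ x ∈ S.subtype (fun x => x ≠ i ∧ x ≠ j), y x.1 + ∑ a ∈ S ∩ {i, j}, y a := by
  have h1 : ∑ x ∈ S.subtype (fun x => x ≠ i ∧ x ≠ j), y x.1 = ∑ a ∈ S.filter (fun x => x ≠ i ∧ x ≠ j), y a :=
    Finset.sum_subtype_eq_sum_filter (s := S) (f := y) (p := fun x => x ≠ i ∧ x ≠ j)
  have h2 : S ∩ {i, j} = S.filter (fun x => ¬ (x ≠ i ∧ x ≠ j)) := by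
    ext x
    simp only [mem_inter, mem_insert, mem_singleton, mem_filter]
    constructor
    · rintro ⟨h, h'⟩
      refine ⟨h, ?_⟩
      rintro ⟨g1, g2⟩
      rcases h' with h' | h'
      · exact g1 h'
      · exact g2 h'
    · rintro ⟨h, h'⟩
      refine ⟨h, ?_⟩
      by_contra hc
      push Not at hc
      exact h' hc
  rw [h1, h2, sum_filter_add_sum_filter_not]

theorem SPL_fib {ι : Type} [Fintype ι] [DecidableEq ι] (y : ι → ℝ) (i j : ι) (T : ℝ) (E : Finset ι)
    (hE : E ⊆ {i, j}) :
    #((univ.filter fun S : Finset ι => ∑ a ∈ S, y a = T).filter fun S => S ∩ {i, j} = E) =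
      cnt (fun x : {x : ι // x ≠ i ∧ x ≠ j} => y x.1) (T - ∑ a ∈ E, y a) := by
  classical
  unfold cnt
  have hmapinter : ∀ S' : Finset {x : ι // x ≠ i ∧ x ≠ j},
      (S'.map (Function.Embedding.subtype _) ∪ E) ∩ {i, j} = E := by
    intro S'
    ext x
    simp only [mem_inter, mem_union, mem_map, Function.Embedding.coe_subtype, Subtype.exists, exists_and_right,
      exists_eq_right, mem_insert, mem_singleton]
    constructor
    · rintro ⟨h | h, h'⟩
      · obtain ⟨hx, _⟩ := h
        rcases h' with h' | h'
        · exact absurd h' hx.1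
        · exact absurd h' hx.2
      · exact h
    · intro h
      refine ⟨Or.inr h, ?_⟩
      have := hE h
      simpa using this
  have hsub : ∀ S' : Finset {x : ι // x ≠ i ∧ x ≠ j},
      (S'.map (Function.Embedding.subtype _) ∪ E).subtype (fun x => x ≠ i ∧ x ≠ j) = S' := by
    intro S'
    ext x
    simp only [mem_subtype, mem_union, mem_map, Function.Embedding.coe_subtype]
    constructor
    · rintro (⟨z, hz, hzx⟩ | h)
      · rw [Subtype.ext hzx] at hz
        exact hz
      · have := hE h
        simp only [mem_insert, mem_singleton] at this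
        rcases this with h' | h'
        · exact absurd h' x.2.1
        · exact absurd h' x.2.2
    · intro h
      exact Or.inl ⟨x, h, rfl⟩
  refine card_nbij' (fun S => S.subtype (fun x => x ≠ i ∧ x ≠ j))
    (fun S' => S'.map (Function.Embedding.subtype _) ∪ E) ?_ ?_ ?_ ?_
  · intro S hS
    simp only [coe_filter, mem_filter, mem_univ, true_and, Set.mem_ofPred_eq] at hS ⊢
    have := SPL_sum y i j S
    rw [hS.1, hS.2] at this
    linarith
  · intro S' hS'
    simp only [coe_filter, mem_filter, mem_univ, true_and, Set.mem_ofPred_eq] at hS' ⊢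
    refine ⟨?_, hmapinter S'⟩
    rw [SPL_sum y i j, hsub, hmapinter, hS']
    ring
  · intro S hS
    simp only [coe_filter, mem_filter, mem_univ, true_and, Set.mem_ofPred_eq] at hS
    ext x
    simp only [mem_union, mem_map, mem_subtype, Function.Embedding.coe_subtype, Subtype.exists, exists_and_left,
      exists_prop]
    rw [← hS.2]
    constructor
    · rintro (⟨z, hz, hz2, rfl⟩ | h)
      · exact hz
      · exact (mem_inter.1 h).1
    · intro h
      by_cases hx : x ≠ i ∧ x ≠ j
      · exact Or.inl ⟨x, h, hx, rfl⟩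
      · right
        rw [mem_inter, mem_insert, mem_singleton]
        refine ⟨h, ?_⟩
        by_contra hc
        push Not at hc
        exact hx hc
  · intro S' _
    exact hsub S'

theorem SPL : SPL_stmt := by
  intro ι _ _ y i j T hij
  have h0 : cnt y T = ∑ E ∈ ({i, j} : Finset ι).powerset,
      #((univ.filter fun S : Finset ι => ∑ a ∈ S, y a = T).filter fun S => S ∩ {i, j} = E) := by
    unfold cnt
    exact card_eq_sum_card_fiberwise fun S _ => mem_powerset.2 inter_subset_right
  have h1 : ∑ E ∈ ({i, j} : Finset ι).powerset,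
      #((univ.filter fun S : Finset ι => ∑ a ∈ S, y a = T).filter fun S => S ∩ {i, j} = E) =
      ∑ E ∈ ({i, j} : Finset ι).powerset,
        cnt (fun x : {x : ι // x ≠ i ∧ x ≠ j} => y x.1) (T - ∑ a ∈ E, y a) :=
    sum_congr rfl fun E hE => SPL_fib y i j T E (mem_powerset.1 hE)
  rw [h0, h1]
  have hni : i ∉ ({j} : Finset ι) := by
    rw [mem_singleton]
    exact hij
  rw [sum_powerset_insert hni, ← insert_empty_eq j, sum_powerset_insert (notMem_empty j),
    sum_powerset_insert (notMem_empty j), powerset_empty, sum_singleton, sum_singleton, sum_singleton, sum_singleton]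
  rw [sum_empty, sub_zero, insert_empty_eq, insert_empty_eq, sum_singleton, sum_singleton, sum_pair hij]
  have e : T - (y i + y j) = T - y i - y j := by ring
  rw [e]
  ring

end Pool.Agent.helper72.UP
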