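import Pool.Agent.helper72.UP.Spec

set_option autoImplicit false

namespace Pool.Agent.helper72.UP

open Finset

theorem UPB_zer {n : ℕ} (x : Fin n → ℝ) (k : ℕ) : zer x k + 1 ≤ cnt x 0 := by
  unfold zer cnt
  rw [← card_insert_of_notMem (a := (∅ : Finset (Fin n)))]
  · apply card_le_card
    intro s hs
    rcases mem_insert.1 hs with rfl | hs
    · exact mem_filter.2 ⟨mem_univ _, sum_empty⟩
    · exact mem_filter.2 ⟨mem_univ _, (mem_filter.1 hs).2.2.2⟩
  · intro h
    exact not_nonempty_empty (mem_filter.1 h).2.1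

theorem UPB_arith (n z V T C : ℕ) (h1 : n * (z + 1) ≤ (n - 1) * C) (h2 : 1 + V + T = C) (h3 : n * T ≤ C)
    (hn : 1 ≤ n) : z ≤ V := by
  by_contra hc
  obtain ⟨m, rfl⟩ : ∃ m, n = m + 1 := ⟨n - 1, by omega⟩
  have e : m + 1 - 1 = m := by omega
  rw [e] at h1
  have h4 : (m + 1) * (V + 2) ≤ (m + 1) * (z + 1) := Nat.mul_le_mul_left _ (by omega)
  subst h2
  nlinarith

theorem UPB (h1 : VAN_stmt) (h2 : BAL_stmt) (h3 : STA_stmt) (h4 : FLP_stmt) (h5 : EQC_stmt) : UPB_stmt := by
  classical
  intro n k x hk hx hT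
  by_cases hex : ∃ i j, |x i| < |x j|
  · obtain ⟨i, j, hij⟩ := hex
    obtain ⟨T, hTT⟩ := h4 n x
    have hs := h3 n (fun i => |x i|) i j T (fun a => abs_pos.2 (hx a)) hij
    rw [← hTT] at hs
    have hz := UPB_zer x k
    have hn : 1 ≤ n := by
      have := i.2
      omega
    exact UPB_arith n (zer x k) (VV n k) (TT n k) _ ((Nat.mul_le_mul_left n hz).trans hs) (h1 n k hk) hT hn
  · push Not at hex
    rcases Nat.eq_zero_or_pos n with h0 | hpos
    · subst h0
      have : zer x k = 0 := by
        unfold zer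
        rw [card_eq_zero, filter_eq_empty_iff]
        rintro s _ ⟨⟨a, _⟩, _⟩
        exact a.elim0
      rw [this]
      exact Nat.zero_le _
    · have hc : ∀ i, |x i| = |x ⟨0, hpos⟩| := fun i => le_antisymm (hex _ _) (hex _ _)
      rw [h5 n k x (|x ⟨0, hpos⟩|) (abs_pos.2 (hx _)) hc]
      unfold VV uu
      apply sum_le_sum
      intro i _
      have hab : #{a : Fin n | 0 < x a} + #{a : Fin n | x a < 0} = n := by
        have h6 := card_filter_add_card_filter_not (s := (univ : Finset (Fin n))) (fun a => 0 < x a)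
        have h7 : (univ.filter fun a : Fin n => ¬ 0 < x a) = univ.filter fun a : Fin n => x a < 0 := by
          apply filter_congr
          intro a _
          constructor
          · intro h
            exact lt_of_le_of_ne (not_lt.1 h) (hx a)
          · intro h
            exact not_lt.2 h.le
        rw [h7, card_univ, Fintype.card_fin] at h6
        exact h6
      have h8 := h2 #{a : Fin n | 0 < x a} #{a : Fin n | x a < 0} i
      rw [hab] at h8
      exact h8

end Pool.Agent.helper72.UP
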